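import Pool.Agent.Work.MP_dbe197_lc.Main2

/-!
# Compactness principles at `ω₂` with `ω₁ < 𝔱 = 𝔲 < 2^ω`
-/

namespace Pool.Agent.Results.MP_dbe197_lc.Compactness

open Pool.Agent.Work.MP_dbe197_lc

/-- Positive answer to Q1. If there is a measurable cardinal which carries a normal ultrafilter
concentrating on measurable cardinals, then there is a model `(M, E)` of ZFC in which (with
`w0 = ω`, `w1 = ω₁`, `w2 = ω₂`) stationary reflection at `ω₂`, the tree property at `ω₂`, the
negation of the weak Kurepa hypothesis, a disjoint stationary sequence on `ω₂` and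
`ω₁ < 𝔱 = 𝔲 = ω₂ < 2^ω` hold. -/
theorem result (κ : Cardinal.{0}) (hκ : LC κ) :
    ∃ (M : Type 1) (E : M → M → Prop), MZ.ZFC E ∧ ∃ w0 w1 w2, MZ.Good E w0 w1 w2 :=
  main2 κ hκ

end Pool.Agent.Results.MP_dbe197_lc.Compactness
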